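import Pool.Agent.Helper33.KV.GoalsF
import Pool.Agent.Helper61.KV.ECL1

/-!
# Packet KV-F-IDN (`MP_66be51_an`): integral identities
-/

set_option autoImplicit false

namespace Pool.Agent.Helper29.KV

open Real MeasureTheory Filter Pool.Agent.Helper41.KV Pool.Agent.Helper33.KV
open scoped Topology

lemma hd {f : ℝ → ℝ} (hf : ContDiff ℝ (⊤ : ℕ∞) f) (y : ℝ) : HasDerivAt f (deriv f y) y :=
  ((hf.differentiable (by simp)) y).hasDerivAt

lemma tendE {F : ℝ → ℝ} (hF : IsE F) : Tendsto F atTop (𝓝 0) ∧ Tendsto F atBot (𝓝 0) := by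
  obtain ⟨C, hC⟩ := hF.2 0 (1 / 2) (by norm_num)
  simp only [iteratedDeriv_zero] at hC
  have key : ∀ l : Filter ℝ, Tendsto (fun y : ℝ => |y|) l atTop → Tendsto F l (𝓝 0) := by
    intro l hl
    apply squeeze_zero_norm (a := fun y => C * Real.exp (-(1 / 2 * |y|)))
    · intro y
      rw [Real.norm_eq_abs]
      exact hC y
    · have h1 : Tendsto (fun y : ℝ => 1 / 2 * |y|) l atTop :=
        hl.const_mul_atTop (by norm_num)
      have h2 := (Real.tendsto_exp_neg_atTop_nhds_zero.comp h1).const_mul C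
      simpa using h2
  exact ⟨key _ tendsto_abs_atTop_atTop, key _ tendsto_abs_atBot_atTop⟩

/-- the integral of a total derivative vanishes -/
lemma tot {F f : ℝ → ℝ} (hF : IsE F) (h : ∀ y, HasDerivAt F (f y) y) : (∫ y, f y) = 0 := by
  have hd' : deriv F = f := funext fun y => (h y).deriv
  have hi : Integrable f := by
    rw [← hd']
    exact Pool.Agent.Helper61.KV.intE (Pool.Agent.Helper61.KV.derE hF)
  have := integral_of_hasDerivAt_of_tendsto h hi (tendE hF).2 (tendE hF).1
  simpa using this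

lemma oddint {f : ℝ → ℝ} (h : ∀ y, f (-y) = - f y) : (∫ y, f y) = 0 := by
  have h1 : (∫ y, f (-y)) = ∫ y, f y := integral_neg_eq_self f volume
  simp only [h] at h1
  rw [integral_neg] at h1
  linarith

lemma pos_int {f : ℝ → ℝ} (hc : Continuous f) (h0 : ∀ y, 0 ≤ f y) (hi : Integrable f) (x : ℝ)
    (hx : f x ≠ 0) : 0 < ∫ y, f y := by
  rw [integral_pos_iff_support_of_nonneg h0 hi]
  exact (hc.isOpen_support).measure_pos volume ⟨x, hx⟩

lemma QE (hQ : S_QF) : IsE Q := by
  refine ⟨hQ.1, fun k μ hμ => ?_⟩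
  obtain ⟨C, hC⟩ := hQ.2.2.2.2.2.2.1 k
  refine ⟨|C|, fun y => (hC y).trans ?_⟩
  have h1 : Real.exp (-|y|) ≤ Real.exp (-(μ * |y|)) := by
    apply Real.exp_le_exp.mpr
    nlinarith [abs_nonneg y]
  calc C * Real.exp (-|y|) ≤ |C| * Real.exp (-|y|) :=
        mul_le_mul_of_nonneg_right (le_abs_self C) (Real.exp_pos _).le
    _ ≤ |C| * Real.exp (-(μ * |y|)) := mul_le_mul_of_nonneg_left h1 (abs_nonneg _)

lemma idP : IsP (fun y : ℝ => y) := by
  have := Pool.Agent.Helper61.KV.polyP (Polynomial.X)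
  simpa using this

lemma constP (c : ℝ) : IsP (fun _ : ℝ => c) := by
  have := Pool.Agent.Helper61.KV.polyP (Polynomial.C c)
  simpa using this

lemma smulE {f : ℝ → ℝ} (c : ℝ) (hf : IsE f) : IsE (fun y => c * f y) :=
  Pool.Agent.Helper61.KV.mulPE (constP c) hf

lemma smulP {f : ℝ → ℝ} (c : ℝ) (hf : IsP f) : IsP (fun y => c * f y) :=
  Pool.Agent.Helper61.KV.mulPP (constP c) hf

/-- the square of a function `e - th` with `e` in the class is `1` plus an element of the class -/
lemma sqE {f e : ℝ → ℝ} (he : IsE e) (h : ∀ y, f y ^ 2 = (e y + Real.tanh (2 * y)) ^ 2) :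
    IsE (fun y => f y ^ 2 - 1) := by
  have h1 : IsE (fun y => e y * e y) := Pool.Agent.Helper61.KV.mulPE (Pool.Agent.Helper61.KV.E_P he) he
  have h2 : IsE (fun y => 2 * (Real.tanh (2 * y) * e y)) :=
    smulE 2 (Pool.Agent.Helper61.KV.mulPE Pool.Agent.Helper61.KV.thP he)
  have h3 : IsE (fun y => (-1) * (1 / (Real.cosh (2 * y)) ^ 2)) :=
    smulE (-1) Pool.Agent.Helper61.KV.sechE
  have h4 := Pool.Agent.Helper61.KV.addE (Pool.Agent.Helper61.KV.addE h1 h2) h3
  have h5 : (fun y => f y ^ 2 - 1) = fun y => e y * e y + 2 * (Real.tanh (2 * y) * e y) +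
      (-1) * (1 / (Real.cosh (2 * y)) ^ 2) := by
    funext y
    rw [h y, Real.tanh_eq_sinh_div_cosh]
    have hc : Real.cosh (2 * y) ≠ 0 := (Real.cosh_pos _).ne'
    have hs := Real.cosh_sq (2 * y)
    field_simp
    rw [hs]
    ring
  rw [h5]
  exact h4

/-- integration by parts: `f` polynomially bounded, `g` in the class -/
lemma ibp {f g : ℝ → ℝ} (hf : IsP f) (hg : IsE g) :
    (∫ y, f y * deriv g y) + (∫ y, deriv f y * g y) = 0 := by
  have h1 : (∫ y, (f y * deriv g y + deriv f y * g y)) = 0 := by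
    refine tot (F := fun y => f y * g y) (Pool.Agent.Helper61.KV.mulPE hf hg) (fun y => ?_)
    refine ((hd hf.1 y).mul (hd hg.1 y)).congr_deriv ?_
    ring
  rw [integral_add] at h1
  · exact h1
  · exact Pool.Agent.Helper61.KV.intE (Pool.Agent.Helper61.KV.mulPE hf
      (Pool.Agent.Helper61.KV.derE hg))
  · exact Pool.Agent.Helper61.KV.intE (Pool.Agent.Helper61.KV.mulPE
      (Pool.Agent.Helper61.KV.derP hf) hg)

end Pool.Agent.Helper29.KV

namespace Pool.Agent.Helper33.KV

open Real MeasureTheory Pool.Agent.Helper41.KV Pool.Agent.Helper29.KV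
open Pool.Agent.Helper61.KV (mulPE mulPP E_P addE addP derE derP intE thP sechE)

theorem thm_IDN (hQ : S_QF) (_hE : S_ECL1) : S_IDN := by
  intro α Z Y V2 hZ hY hV
  have qE : IsE Q := QE hQ
  have qP : IsP Q := E_P qE
  have q'E : IsE (deriv Q) := derE qE
  have qpos := hQ.2.1
  have qeven := hQ.2.2.1
  have qd := hQ.2.2.2.2.1
  have yP := idP
  have q'odd : ∀ y, deriv Q (-y) = - deriv Q y := by
    intro y
    rw [qd, qd, qeven, mul_neg, Real.tanh_neg]
    ring
  have lamE : IsE (Lam Q) := by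
    have h1 : IsE (fun y => (1 / 2 : ℝ) * Q y) := smulE _ qE
    have h2 : IsE (fun y => y * deriv Q y) := mulPE yP q'E
    have h3 := addE h1 h2
    have h4 : Lam Q = fun y => (1 / 2 : ℝ) * Q y + y * deriv Q y := by
      funext y; unfold Lam; ring
    rw [h4]; exact h3
  have lameven : ∀ y, Lam Q (-y) = Lam Q y := by
    intro y
    unfold Lam
    rw [qeven, q'odd]
    ring
  have IQpos : 0 < IQ := pos_int qE.1.continuous (fun y => (qpos y).le) (intE qE) 0 (qpos 0).ne'
  -- the profile Z
  have zE : IsE (fun y => Z y - Real.tanh (2 * y)) := hZ.tail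
  have zP : IsP Z := by
    have h1 := addP (E_P zE) thP
    have h2 : (fun y => Z y - Real.tanh (2 * y) + Real.tanh (2 * y)) = Z := by
      funext y; ring
    rw [h2] at h1
    exact h1
  have z'P : IsP (deriv Z) := derP zP
  have yE : IsE Y := hY.isE
  have y'eq : ∀ y, deriv Y y = deriv Z y + (4 / IQ) * Lam Q y := fun y => (hY.eqn y).deriv
  have vP : IsP V2 := by
    obtain ⟨p, q, hpq⟩ := hV.tail
    have h1 : IsP (fun y => p + q * Real.tanh (2 * y)) := addP (constP p) (smulP q thP)
    have h2 : IsP (fun y => cc α * y * Real.tanh (2 * y)) :=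
      mulPP (smulP (cc α) yP) thP
    have h3 := addP (addP (E_P hpq) h1) h2
    have h4 : (fun y => V2 y - (p + q * Real.tanh (2 * y)) - cc α * y * Real.tanh (2 * y) +
        (p + q * Real.tanh (2 * y)) + cc α * y * Real.tanh (2 * y)) = V2 := by
      funext y; ring
    rw [h4] at h3
    exact h3
  -- elementary integrals
  have i2 : (∫ y, Lam Q y * Q y) = 0 := by
    refine tot (F := fun y => (1 / 2 : ℝ) * (y * (Q y * Q y)))
      (smulE _ (mulPE yP (mulPE qP qE))) (fun y => ?_)
    have h := ((hasDerivAt_id y).mul ((hd qE.1 y).mul (hd qE.1 y))).const_mul (1 / 2 : ℝ)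
    refine h.congr_deriv ?_
    simp only [id, Pi.mul_apply]
    unfold Lam
    ring
  have i3 : (∫ y, deriv Q y * Q y) = 0 := by
    refine tot (F := fun y => (1 / 2 : ℝ) * (Q y * Q y)) (smulE _ (mulPE qP qE)) (fun y => ?_)
    have h := ((hd qE.1 y).mul (hd qE.1 y)).const_mul (1 / 2 : ℝ)
    refine h.congr_deriv ?_
    ring
  have i4 : (∫ y, Lam Q y) = -IQ / 2 := by
    have h1 : (∫ y, (Lam Q y + (1 / 2 : ℝ) * Q y)) = 0 := by
      refine tot (F := fun y => y * Q y) (mulPE yP qE) (fun y => ?_)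
      have h := (hasDerivAt_id y).mul (hd qE.1 y)
      refine h.congr_deriv ?_
      simp only [id]
      unfold Lam
      ring
    rw [integral_add (intE lamE) ((intE qE).const_mul _), integral_const_mul] at h1
    have h2 : (∫ y, Q y) = IQ := rfl
    rw [h2] at h1
    linarith
  have i5 : (∫ y, Z y * Q y) = 0 := by
    refine oddint (fun y => ?_)
    rw [hZ.odd, qeven]
    ring
  have i6 : (∫ y, Lam Q y * deriv Q y) = 0 := by
    refine oddint (fun y => ?_)
    rw [lameven, q'odd]
    ring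
  have i7 : (∫ y, deriv Q y * Q y ^ 3) = 0 := by
    refine tot (F := fun y => (1 / 4 : ℝ) * (Q y * (Q y * (Q y * Q y))))
      (smulE _ (mulPE qP (mulPE qP (mulPE qP qE)))) (fun y => ?_)
    have h := ((hd qE.1 y).mul ((hd qE.1 y).mul ((hd qE.1 y).mul (hd qE.1 y)))).const_mul
      (1 / 4 : ℝ)
    refine h.congr_deriv ?_
    simp only [Pi.mul_apply]
    ring
  have q4E : IsE (fun y => Q y * (Q y * (Q y * Q y))) := mulPE qP (mulPE qP (mulPE qP qE))
  have q4eq : (fun y => Q y ^ 4) = fun y => Q y * (Q y * (Q y * Q y)) := by funext y; ring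
  have i8 : (∫ y, Lam Q y * Q y ^ 3) = (∫ y, Q y ^ 4) / 4 := by
    have h1 : (∫ y, (Lam Q y * Q y ^ 3 + (-(1 / 4 : ℝ)) * Q y ^ 4)) = 0 := by
      refine tot (F := fun y => (1 / 4 : ℝ) * (y * (Q y * (Q y * (Q y * Q y)))))
        (smulE _ (mulPE yP q4E)) (fun y => ?_)
      have h := ((hasDerivAt_id y).mul ((hd qE.1 y).mul ((hd qE.1 y).mul
        ((hd qE.1 y).mul (hd qE.1 y))))).const_mul (1 / 4 : ℝ)
      refine h.congr_deriv ?_
      simp only [id, Pi.mul_apply]
      unfold Lam
      ring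
    have hi1 : Integrable (fun y => Lam Q y * Q y ^ 3) := by
      have h2 : (fun y => Lam Q y * Q y ^ 3) = fun y => Lam Q y * (Q y * (Q y * Q y)) := by
        funext y; ring
      rw [h2]
      exact intE (mulPE (E_P lamE) (mulPE qP (mulPE qP qE)))
    have hi2 : Integrable (fun y => Q y ^ 4) := by
      rw [q4eq]; exact intE q4E
    rw [integral_add hi1 (hi2.const_mul _), integral_const_mul] at h1
    linarith
  have i9 : 0 < ∫ y, Q y ^ 4 := by
    refine pos_int (qE.1.continuous.pow 4) (fun y => by positivity) ?_ 0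
      (pow_ne_zero _ (qpos 0).ne')
    rw [q4eq]; exact intE q4E
  have i10 : 0 < ∫ y, deriv Q y ^ 2 := by
    refine pos_int (q'E.1.continuous.pow 2) (fun y => by positivity) ?_ 1 ?_
    · have h2 : (fun y => deriv Q y ^ 2) = fun y => deriv Q y * deriv Q y := by funext y; ring
      rw [h2]
      exact intE (mulPE (E_P q'E) q'E)
    · apply pow_ne_zero
      rw [qd]
      have h1 : 0 < Real.tanh (2 * 1) := by
        rw [Real.tanh_eq_sinh_div_cosh]
        exact div_pos (Real.sinh_pos_iff.mpr (by norm_num)) (Real.cosh_pos _)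
      have h2 := mul_pos (qpos 1) h1
      intro h3
      linarith
  have hm : (4 / IQ) ≠ 0 := by positivity
  -- (B)
  have iB : (∫ y, (y * deriv Z y) * Q y) + (∫ y, Z y * Lam Q y) = 0 := by
    have h1 := ibp (f := fun y => y * Z y) (g := Q) (mulPP yP zP) qE
    have h2 : ∀ y, deriv (fun y => y * Z y) y = Z y + y * deriv Z y := by
      intro y
      have h := (hasDerivAt_id y).mul (hd zP.1 y)
      have h' : HasDerivAt (fun y => y * Z y) (Z y + y * deriv Z y) y := by
        refine h.congr_deriv ?_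
        simp only [id]
        ring
      exact h'.deriv
    simp only [h2] at h1
    have e1 : (fun y => (Z y + y * deriv Z y) * Q y) = fun y => Z y * Q y + (y * deriv Z y) * Q y := by
      funext y; ring
    rw [e1, integral_add (intE (mulPE zP qE)) (intE (mulPE (mulPP yP z'P) qE)), i5] at h1
    have e2 : (fun y => Z y * Lam Q y) = fun y => (1 / 2 : ℝ) * (Z y * Q y) + (y * Z y) * deriv Q y := by
      funext y; unfold Lam; ring
    rw [e2, integral_add ((intE (mulPE zP qE)).const_mul _) (intE (mulPE (mulPP yP zP) q'E)),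
      integral_const_mul, i5]
    linarith
  -- (A)
  have iA : (∫ y, Lam Q y * Y y) = ∫ y, Z y * Lam Q y := by
    have hD : ∀ y, HasDerivAt (fun y => Y y - Z y) ((4 / IQ) * Lam Q y) y := by
      intro y
      refine ((hY.eqn y).sub (hd zP.1 y)).congr_deriv ?_
      ring
    have hsq : IsE (fun y => (Y y - Z y) ^ 2 - 1) := by
      have he : IsE (fun y => (Z y - Real.tanh (2 * y)) + (-1) * Y y) := addE zE (smulE (-1) yE)
      refine sqE he (fun y => ?_)
      ring
    have h1 : (∫ y, (2 * (4 / IQ)) * ((Y y - Z y) * Lam Q y)) = 0 := by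
      refine tot hsq (fun y => ?_)
      refine (((hD y).pow 2).sub_const 1).congr_deriv ?_
      simp only [Nat.cast_ofNat, Nat.add_one_sub_one, pow_one]
      ring
    rw [integral_const_mul] at h1
    have h2 : (∫ y, (Y y - Z y) * Lam Q y) = 0 := by
      rcases mul_eq_zero.mp h1 with h | h
      · exact absurd h (mul_ne_zero two_ne_zero hm)
      · exact h
    have e1 : (fun y => (Y y - Z y) * Lam Q y) = fun y => Lam Q y * Y y - Z y * Lam Q y := by
      funext y; ring
    rw [e1, integral_sub (intE (mulPE (E_P lamE) yE)) (intE (mulPE zP lamE))] at h2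
    linarith
  have i13 : (∫ y, Q y * deriv Z y) + (∫ y, Z y * deriv Q y) = 0 := by
    have h1 := ibp zP qE
    have e1 : (fun y => deriv Z y * Q y) = fun y => Q y * deriv Z y := by funext y; ring
    rw [e1] at h1
    linarith
  have i11 : (∫ y, deriv Z y * Q y) + (∫ y, deriv Q y * Y y) = 0 := by
    have h1 := ibp qP yE
    have e1 : (fun y => Q y * deriv Y y) = fun y => deriv Z y * Q y + (4 / IQ) * (Lam Q y * Q y) := by
      funext y; rw [y'eq]; ring
    rw [e1, integral_add (intE (mulPE z'P qE)) ((intE (mulPE (E_P lamE) qE)).const_mul _),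
      integral_const_mul, i2] at h1
    linarith
  have izz : (∫ y, Z y * deriv Z y) = 0 := by
    have hsq : IsE (fun y => Z y ^ 2 - 1) := sqE zE (fun y => by ring)
    have h1 : (∫ y, 2 * (Z y * deriv Z y)) = 0 := by
      refine tot hsq (fun y => ?_)
      refine (((hd zP.1 y).pow 2).sub_const 1).congr_deriv ?_
      simp only [Nat.cast_ofNat, Nat.add_one_sub_one, pow_one]
      ring
    rw [integral_const_mul] at h1
    linarith
  have i15 : (∫ y, Q y * (deriv V2 y - cc α * Z y)) + kap α ^ 2 * (∫ y, Z y * deriv Z y)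
      + (∫ y, V2 y * deriv Q y) = 0 := by
    have h1 := ibp vP qE
    have e1 : (fun y => Q y * (deriv V2 y - cc α * Z y)) =
        fun y => deriv V2 y * Q y + (-cc α) * (Z y * Q y) := by
      funext y; ring
    rw [e1, integral_add (intE (mulPE (derP vP) qE)) ((intE (mulPE zP qE)).const_mul _),
      integral_const_mul, i5, izz]
    linarith
  refine ⟨IQpos, i2, i3, i4, i5, i6, i7, i8, i9, i10, ?_, i11, ?_, i13, i15⟩
  · rw [iA]; exact iB
  · have e1 : (fun y => Q y * (y * deriv Z y)) = fun y => (y * deriv Z y) * Q y := by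
      funext y; ring
    rw [e1]; exact iB

end Pool.Agent.Helper33.KV
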